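import Pool.Agent.helper43.DHB.SpecB

set_option autoImplicit false

open Filter Topology MeasureTheory
open scoped commutatorElement

namespace Pool.Agent.helper90.DH

open Pool.Agent.helper64.D2

open Classical in
/-- the coordinate projection onto the coordinates in `p`. -/
noncomputable def bPRO_D {A : Type} [Fintype A] (p : A → Prop) : EuclideanSpace ℝ A →ₗ[ℝ] EuclideanSpace ℝ A where
  toFun v := WithLp.toLp 2 (fun α => if p α then WithLp.ofLp v α else 0)
  map_add' v w := by
    ext α
    simp only [PiLp.add_apply]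
    split_ifs
    · rfl
    · simp
  map_smul' c v := by
    ext α
    simp only [PiLp.smul_apply, RingHom.id_apply, smul_eq_mul]
    split_ifs
    · rfl
    · simp

open Classical in
theorem bPRO_D_apply {A : Type} [Fintype A] (p : A → Prop) (v : EuclideanSpace ℝ A) (α : A) :
    (bPRO_D p v) α = if p α then v α else 0 := rfl

open Classical in
theorem bPRO_rk {A : Type} [Fintype A] (p : A → Prop) [Fintype {α // p α}] :
    Module.finrank ℝ (LinearMap.range (bPRO_D p)) ≤ Fintype.card {α // p α} := by
  let L : ({α // p α} → ℝ) →ₗ[ℝ] EuclideanSpace ℝ A :=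
    { toFun := fun w => WithLp.toLp 2 (fun α => if h : p α then w ⟨α, h⟩ else 0)
      map_add' := by
        intro v w
        ext α
        simp only [PiLp.add_apply, Pi.add_apply]
        split_ifs
        · rfl
        · simp
      map_smul' := by
        intro c v
        ext α
        simp only [PiLp.smul_apply, Pi.smul_apply, RingHom.id_apply, smul_eq_mul]
        split_ifs
        · rfl
        · simp }
  have hle : LinearMap.range (bPRO_D p) ≤ LinearMap.range L := by
    rintro x ⟨v, rfl⟩
    refine ⟨fun α => v α.1, ?_⟩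
    ext α
    show (if h : p α then v α else 0) = (if p α then v α else 0)
    split_ifs <;> rfl
  calc Module.finrank ℝ (LinearMap.range (bPRO_D p)) ≤ Module.finrank ℝ (LinearMap.range L) :=
        Submodule.finrank_mono hle
    _ ≤ Module.finrank ℝ ({α // p α} → ℝ) := LinearMap.finrank_range_le L
    _ = Fintype.card {α // p α} := Module.finrank_fintype_fun_eq_card ℝ

open Classical in
theorem bPRO : bPRO_stmt := by
  intro s u hus
  have hpow : 2 ^ s = 2 ^ u * 2 ^ (s - u) := by rw [← pow_add]; congr 1; omega
  have hpos : 0 < 2 ^ (s - u) := by positivity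
  refine ⟨fun j => LinearMap.toContinuousLinearMap (bPRO_D (fun α : Kc s × Bool => (α.1.1 : ℕ) / 2 ^ (s - u) = (j : ℕ))), ?_, ?_⟩
  · refine ⟨?_, ?_, ?_, ?_, ?_⟩
    · intro j
      ext v α
      simp only [ContinuousLinearMap.comp_apply, LinearMap.coe_toContinuousLinearMap', bPRO_D_apply]
      split_ifs <;> rfl
    · intro j v w
      simp only [LinearMap.coe_toContinuousLinearMap', PiLp.inner_apply, bPRO_D_apply]
      refine Finset.sum_congr rfl fun α _ => ?_
      split_ifs <;> simp
    · intro j j' hjj
      ext v α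
      simp only [ContinuousLinearMap.comp_apply, LinearMap.coe_toContinuousLinearMap', bPRO_D_apply, ContinuousLinearMap.zero_apply, PiLp.zero_apply]
      split_ifs with h1 h2
      · exfalso
        apply hjj
        apply Fin.ext
        rw [← h1, ← h2]
      · rfl
      · rfl
    · ext v α
      rw [ContinuousLinearMap.sum_apply, ContinuousLinearMap.id_apply]
      have e1 : (∑ j : Fin (2 ^ u), (LinearMap.toContinuousLinearMap (bPRO_D (fun α : Kc s × Bool => (α.1.1 : ℕ) / 2 ^ (s - u) = (j : ℕ)))) v) α
          = ∑ j : Fin (2 ^ u), ((LinearMap.toContinuousLinearMap (bPRO_D (fun α : Kc s × Bool => (α.1.1 : ℕ) / 2 ^ (s - u) = (j : ℕ)))) v) α := by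
        simp
      rw [e1]
      simp only [LinearMap.coe_toContinuousLinearMap', bPRO_D_apply]
      have hlt : (α.1.1 : ℕ) / 2 ^ (s - u) < 2 ^ u := by
        rw [Nat.div_lt_iff_lt_mul hpos, ← hpow]
        exact α.1.1.2
      rw [Finset.sum_eq_single (⟨(α.1.1 : ℕ) / 2 ^ (s - u), hlt⟩ : Fin (2 ^ u))]
      · simp
      · intro j _ hj
        rw [if_neg]
        intro h
        apply hj
        apply Fin.ext
        exact h.symm
      · intro h
        exact absurd (Finset.mem_univ _) h
    · intro j
      refine (bPRO_rk _).trans ?_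
      have hinj : Function.Injective (fun α : {α : Kc s × Bool // (α.1.1 : ℕ) / 2 ^ (s - u) = (j : ℕ)} =>
          ((⟨(α.1.1.1 : ℕ) % 2 ^ (s - u), Nat.mod_lt _ hpos⟩, α.1.2) : Fin (2 ^ (s - u)) × Bool)) := by
        rintro ⟨⟨⟨k, hk⟩, b⟩, h⟩ ⟨⟨⟨k', hk'⟩, b'⟩, h'⟩ he
        simp only [Prod.mk.injEq, Fin.mk.injEq] at he
        obtain ⟨he1, he2⟩ := he
        have e1 : (k : ℕ) = (k' : ℕ) := by
          have a1 := Nat.div_add_mod (k : ℕ) (2 ^ (s - u))
          have a2 := Nat.div_add_mod (k' : ℕ) (2 ^ (s - u))
          have h1 : (k : ℕ) / 2 ^ (s - u) = (j : ℕ) := h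
          have h2 : (k' : ℕ) / 2 ^ (s - u) = (j : ℕ) := h'
          rw [← a1, ← a2, h1, h2, he1]
        have e2 : k = k' := Fin.ext e1
        subst e2
        subst he2
        rfl
      have hcard := Fintype.card_le_of_injective _ hinj
      rw [Fintype.card_prod, Fintype.card_fin, Fintype.card_bool] at hcard
      exact hcard.trans (le_of_eq (by ring))
  · intro j v α
    have e1 := bPRO_D_apply (fun α : Kc s × Bool => (α.1.1 : ℕ) / 2 ^ (s - u) = (j : ℕ)) v α
    refine Eq.trans e1 ?_
    split_ifs <;> rfl

end Pool.Agent.helper90.DH
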